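import Pool.Agent.H4.SE.Final

/-!
# Simultaneous asymptotic equidistribution of tuples of words: the full answer

Let `w_1, …, w_d` be elements of the free group of rank `r` such that the subgroup `H` generated by
them is free of rank `d` and is not contained in a subgroup of rank smaller than `d`. Then the tuple
is simultaneously asymptotically equidistributed in the symmetric groups.

Idea. (1) A law on `S_n ^ d` with entropy at least `d log n! - o(n)` is close to the uniform law
(concentration of measure and Hall's theorem). (2) Insert one more point into `r` random
permutations of `n` points. The entropy of the values of the words changes by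
`log (n + 1) + ∑_i ρ (E_i) - ρ (V) + o (1)`, where `V` are the vertices and `E_i` the edges with
label `i` of the wedge of `d` circles which spell the words, and `ρ (A)` is the conditional entropy
of the positions of the vertices in `A` at a random point, given the values of the words.
(3) `ρ` is submodular. The optimal partitions of `V` and of the `E_i` for the truncations `ρ - t`
are compatible, so that they define a quotient graph, and this quotient graph defines a subgroup
which contains the words and is generated by `|E| - |V| + 1` elements. So the last number is at
least `d`, which gives `∑_i ρ (E_i) - ρ (V) ≥ (d - 1) log n`.
-/

set_option autoImplicit false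

namespace Pool.Agent.Results.MP_45b854_al.RankCriterion

open Pool.Agent.H11.SAE

/-- If the words `w_1, …, w_d` generate a free subgroup of rank `d` which is not contained in any
subgroup of rank smaller than `d`, then the tuple is simultaneously asymptotically
equidistributed. -/
theorem result (r d : ℕ) (w : Fin d → FreeGroup (Fin r))
    (_hrank : Nonempty (FreeGroup (Fin d) ≃* Subgroup.closure (Set.range w)))
    (hover : ∀ K : Subgroup (FreeGroup (Fin r)), Subgroup.closure (Set.range w) ≤ K →
      ∀ m < d, ¬ Nonempty (FreeGroup (Fin m) ≃* K)) :
    IsSAE w := by
  refine Pool.Agent.H4.SE.Final.full w fun K hK m hm => ?_
  by_contra hlt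
  refine hover K ?_ m (not_le.1 hlt) hm
  rw [Subgroup.closure_le]
  rintro _ ⟨j, rfl⟩
  exact hK j

end Pool.Agent.Results.MP_45b854_al.RankCriterion
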